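import Pool.Agent.W398.SG.StmC

set_option autoImplicit false

/-!
# Project SG (MP_9a3597_al), part C: S_IRR
-/

namespace Pool.Agent.W924.SG.IRR

open Pool.Agent.W37.SG Pool.Agent.W398.SG.C

theorem main : S_IRR := by
  intro p hp P T _ _ _ ρ hT hU f hf
  obtain ⟨hfin, htf, hne⟩ := hT
  have hI : Ideal.span {(p : ℤ_[p])} ≤ Ideal.jacobson ⊥ := by
    rw [← PadicInt.maximalIdeal_eq_span_p]
    exact IsLocalRing.maximalIdeal_le_jacobson ⊥
  have hsat : ∀ y : T, f ((p : ℤ_[p]) • y) = 0 → f y = 0 := by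
    intro y hy
    rw [map_smul] at hy
    exact htf _ hy
  set P1 : Submodule ℤ_[p] T := LinearMap.range ((p : ℤ_[p]) • (LinearMap.id : T →ₗ[ℤ_[p]] T))
    with hP1
  set P2 : Submodule ℤ_[p] T :=
    LinearMap.range ((p : ℤ_[p]) ^ 2 • (LinearMap.id : T →ₗ[ℤ_[p]] T)) with hP2
  have m1 : ∀ x, x ∈ P1 ↔ ∃ y : T, (p : ℤ_[p]) • y = x := by
    intro x
    simp [hP1]
  have m2 : ∀ x, x ∈ P2 ↔ ∃ y : T, (p : ℤ_[p]) ^ 2 • y = x := by
    intro x
    simp [hP2]
  have hcomp := hU (LinearMap.ker f ⊔ P2) P1 (by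
      intro g x hx
      obtain ⟨a, ha, b, hb, rfl⟩ := Submodule.mem_sup.1 hx
      rw [map_add]
      refine Submodule.add_mem_sup ?_ ?_
      · exact hf g a ha
      · obtain ⟨y, rfl⟩ := (m2 _).1 hb
        exact (m2 _).2 ⟨ρ g y, (map_smul _ _ _).symm⟩) (by
      intro g x hx
      obtain ⟨y, rfl⟩ := (m1 _).1 hx
      exact (m1 _).2 ⟨ρ g y, (map_smul _ _ _).symm⟩)
    ⟨2, fun x => Submodule.mem_sup_right ((m2 _).2 ⟨x, rfl⟩)⟩
    ⟨1, fun x => (m1 _).2 ⟨x, by rw [pow_one]⟩⟩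
  rcases hcomp with h | h
  · left
    have hN : LinearMap.ker f = ⊥ := by
      refine Submodule.eq_bot_of_le_smul_of_le_jacobson_bot (Ideal.span {(p : ℤ_[p])}) _
        (IsNoetherian.noetherian _) ?_ hI
      intro x hx
      obtain ⟨y, rfl⟩ := (m1 _).1 (h (Submodule.mem_sup_left hx))
      exact Submodule.smul_mem_smul (Ideal.subset_span rfl) (hsat y hx)
    intro x hx
    have : x ∈ LinearMap.ker f := hx
    rw [hN] at this
    simpa using this
  · right
    have hN : (⊤ : Submodule ℤ_[p] T) ≤ LinearMap.ker f := by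
      refine Submodule.le_of_le_smul_of_le_jacobson_bot (I := Ideal.span {(p : ℤ_[p])})
        (IsNoetherian.noetherian _) hI ?_
      intro x _
      obtain ⟨a, ha, b, hb, hab⟩ := Submodule.mem_sup.1 (h ((m1 _).2 ⟨x, rfl⟩))
      obtain ⟨y, rfl⟩ := (m2 _).1 hb
      have h1 : f (x - (p : ℤ_[p]) • y) = 0 := by
        apply hsat
        have h2 : (p : ℤ_[p]) • (x - (p : ℤ_[p]) • y) = a := by
          rw [smul_sub, smul_smul, ← pow_two, ← hab, add_sub_cancel_right]
        rw [h2]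
        exact ha
      have h3 : x = (x - (p : ℤ_[p]) • y) + (p : ℤ_[p]) • y := by abel
      rw [h3]
      exact Submodule.add_mem_sup h1 (Submodule.smul_mem_smul (Ideal.subset_span rfl) trivial)
    exact fun x => hN (Submodule.mem_top (x := x))

end Pool.Agent.W924.SG.IRR
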